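import Pool.Agent.J4H60.IF.Stm

/-!
# IF, piece I
-/

set_option autoImplicit false

namespace Pool.Agent.J4H15.IF

open Finset Pool.Agent.J4H60.IF

theorem ne_compl (X : V) : X ≠ Xᶜ := by
  intro h
  have h1 := congrArg Finset.card h
  rw [Finset.card_compl, Fintype.card_fin] at h1
  have h2 : X.card ≤ 7 := by
    have := Finset.card_le_univ X
    simpa using this
  omega

theorem card_cmp (X : V) : Xᶜ.card + X.card = 7 := by
  rw [Finset.card_compl, Fintype.card_fin]
  have h2 : X.card ≤ 7 := by
    have := Finset.card_le_univ X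
    simpa using this
  omega

theorem cross (F : Finset V) (hF : F.card = 64)
    (hi : ∀ X ∈ F, ∀ Y ∈ F, X ≠ Y → ¬ Disjoint X Y) (X : V) : X ∈ F ↔ Xᶜ ∉ F := by
  have hcard : (F.image compl).card = 64 := by
    rw [Finset.card_image_of_injective _ compl_injective, hF]
  have hdis : Disjoint F (F.image compl) := by
    rw [Finset.disjoint_left]
    intro Y hY hY'
    obtain ⟨Z, hZ, rfl⟩ := Finset.mem_image.mp hY'
    exact hi Z hZ _ hY (ne_compl Z) disjoint_compl_right
  have hu : F ∪ F.image compl = univ := by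
    apply Finset.eq_univ_of_card
    rw [Finset.card_union_of_disjoint hdis, hF, hcard]
    simp
  constructor
  · intro h1 h2
    exact hi X h1 _ h2 (ne_compl X) disjoint_compl_right
  · intro h
    have hX : X ∈ F ∪ F.image compl := by
      rw [hu]
      exact Finset.mem_univ X
    rcases Finset.mem_union.mp hX with h1 | h1
    · exact h1
    · obtain ⟨Z, hZ, rfl⟩ := Finset.mem_image.mp h1
      rw [compl_compl] at h
      exact absurd hZ h

theorem t_I : S_I := by
  intro A h3 _
  rw [cnt, ind]
  apply Finset.card_le_card_of_injOn (fun F => F.filter (fun X => X.card = 3))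
  · intro F hF
    rw [Finset.mem_coe, Finset.mem_filter, Finset.mem_powersetCard] at hF
    obtain ⟨⟨hFA, _⟩, hi⟩ := hF
    rw [Finset.mem_coe, Finset.mem_filter, Finset.mem_powerset]
    refine ⟨Finset.filter_subset_filter _ hFA, ?_⟩
    intro X hX Y hY
    exact hi X (Finset.mem_filter.mp hX).1 Y (Finset.mem_filter.mp hY).1
  · have key : ∀ F ∈ (A.powersetCard 64).filter
        (fun F => ∀ X ∈ F, ∀ Y ∈ F, X ≠ Y → ¬ Disjoint X Y),
        ∀ F' ∈ (A.powersetCard 64).filter
        (fun F => ∀ X ∈ F, ∀ Y ∈ F, X ≠ Y → ¬ Disjoint X Y),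
        F.filter (fun X => X.card = 3) = F'.filter (fun X => X.card = 3) → F ⊆ F' := by
      intro F hF F' hF' he X hX
      rw [Finset.mem_filter, Finset.mem_powersetCard] at hF hF'
      obtain ⟨⟨hFA, hFc⟩, hi⟩ := hF
      obtain ⟨⟨hFA', hFc'⟩, hi'⟩ := hF'
      have htr : ∀ Y : V, Y.card = 3 → (Y ∈ F ↔ Y ∈ F') := by
        intro Y hY
        have := Finset.ext_iff.mp he Y
        simp only [Finset.mem_filter, hY, and_true] at this
        exact this
      by_cases hX3 : X.card = 3
      · exact (htr X hX3).mp hX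
      · rw [cross F' hFc' hi' X]
        intro hc
        have h1 := h3 _ (hFA' hc)
        have h2 := h3 _ (hFA hX)
        have h4 := card_cmp X
        have h5 : (Xᶜ).card = 3 := by omega
        exact (cross F hFc hi X).mp hX ((htr _ h5).mpr hc)
    intro F hF F' hF' he
    rw [Finset.mem_coe] at hF hF'
    exact Finset.Subset.antisymm (key F hF F' hF' he) (key F' hF' F hF he.symm)

end Pool.Agent.J4H15.IF
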